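import Mathlib

/-!
Row-deleted Hadamard matrices: the columns of `H_{-4}` need not be diametrically maximal.
-/

namespace Pool.Agent.Results.MP_1efffb_co.FourRows

open Matrix

/-- The cube `Q_m = {±1}^m`. -/
def cube (m : ℕ) : Set (Fin m → ℤ) := {x | ∀ i, x i = 1 ∨ x i = -1}

/-- The diameter of a set of vectors for the Hamming distance. -/
noncomputable def diam {m : ℕ} (A : Set (Fin m → ℤ)) : ℕ :=
  sSup {d | ∃ x ∈ A, ∃ y ∈ A, d = hammingDist x y}

/-- `A` is diametrically maximal in `Q_m`. -/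
def DiamMaximal {m : ℕ} (A : Set (Fin m → ℤ)) : Prop :=
  ∀ x ∈ cube m, x ∉ A → diam A < diam (insert x A)

/-- Normalized Hadamard matrices of order `n`. -/
structure NormHadamard {n : ℕ} (H : Matrix (Fin n) (Fin n) ℤ) : Prop where
  entries : ∀ i j, H i j = 1 ∨ H i j = -1
  rows : H * Hᵀ = (n : ℤ) • (1 : Matrix (Fin n) (Fin n) ℤ)
  cols : Hᵀ * H = (n : ℤ) • (1 : Matrix (Fin n) (Fin n) ℤ)
  first_row : ∀ i j : Fin n, (i : ℕ) = 0 → H i j = 1
  first_col : ∀ i j : Fin n, (j : ℕ) = 0 → H i j = 1

/-- The set of columns of `H_{-r}` (the first `r` rows deleted). -/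
def colSet {n : ℕ} (r : ℕ) (H : Matrix (Fin n) (Fin n) ℤ) : Set (Fin (n - r) → ℤ) :=
  {y | ∃ k : Fin n, ∀ i : Fin (n - r), y i = H ⟨r + i, by omega⟩ k}

/-! ### Skew conference matrices of order `2^t` -/

/-- Skew conference matrices. -/
structure Skew {ι : Type} [Fintype ι] [DecidableEq ι] (C : Matrix ι ι ℤ) : Prop where
  skew : Cᵀ = -C
  diag : ∀ i, C i i = 0
  off : ∀ i j, i ≠ j → C i j = 1 ∨ C i j = -1
  sq : C * C = -((Fintype.card ι : ℤ) - 1) • (1 : Matrix ι ι ℤ)

theorem skew_two : Skew (!![0, 1; -1, 0] : Matrix (Fin 2) (Fin 2) ℤ) where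
  skew := by ext i j; fin_cases i <;> fin_cases j <;> simp
  diag := by intro i; fin_cases i <;> simp
  off := by intro i j h; fin_cases i <;> fin_cases j <;> simp_all
  sq := by
    ext i j
    fin_cases i <;> fin_cases j <;> simp [Matrix.mul_apply, Fin.sum_univ_two]

theorem skew_double {ι : Type} [Fintype ι] [DecidableEq ι] {C : Matrix ι ι ℤ} (h : Skew C) :
    Skew (fromBlocks C (C + 1) (C - 1) (-C)) where
  skew := by
    rw [fromBlocks_transpose, fromBlocks_neg]
    simp only [transpose_add, transpose_sub, transpose_neg, transpose_one, h.skew]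
    congr 1
    · abel
    · abel
  diag := by
    rintro (i | i) <;> simp [h.diag]
  off := by
    rintro (i | i) (j | j) hij
    · simp only [fromBlocks_apply₁₁]
      exact h.off i j (fun e => hij (by rw [e]))
    · simp only [fromBlocks_apply₁₂, Matrix.add_apply]
      by_cases e : i = j
      · subst e; simp [h.diag]
      · rw [one_apply_ne e, add_zero]; exact h.off i j e
    · simp only [fromBlocks_apply₂₁, Matrix.sub_apply]
      by_cases e : i = j
      · subst e; simp [h.diag]
      · rw [one_apply_ne e, sub_zero]; exact h.off i j e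
    · simp only [fromBlocks_apply₂₂, Matrix.neg_apply]
      rcases h.off i j (fun e => hij (by rw [e])) with h1 | h1
      · right; rw [h1]
      · left; rw [h1]; norm_num
  sq := by
    rw [fromBlocks_multiply, ← fromBlocks_one, fromBlocks_smul, Fintype.card_sum]
    have hs := h.sq
    have e1 : C * C + (C + 1) * (C - 1) =
        -(((Fintype.card ι + Fintype.card ι : ℕ) : ℤ) - 1) • (1 : Matrix ι ι ℤ) := by
      have : (C + 1) * (C - 1) = C * C - 1 := by noncomm_ring
      rw [this, hs]
      ext i j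
      simp only [Matrix.add_apply, Matrix.sub_apply, Matrix.smul_apply, smul_eq_mul]
      push_cast
      ring
    have e2 : C * (C + 1) + (C + 1) * -C = 0 := by noncomm_ring
    have e3 : (C - 1) * C + -C * (C - 1) = 0 := by noncomm_ring
    have e4 : (C - 1) * (C + 1) + -C * -C =
        -(((Fintype.card ι + Fintype.card ι : ℕ) : ℤ) - 1) • (1 : Matrix ι ι ℤ) := by
      have : (C - 1) * (C + 1) + -C * -C = C * C + (C + 1) * (C - 1) := by noncomm_ring
      rw [this, e1]
    rw [e1, e2, e3, e4, smul_zero]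

theorem exists_skew (N : ℕ) : ∃ (ι : Type) (_ : Fintype ι) (_ : DecidableEq ι)
    (C : Matrix ι ι ℤ), Skew C ∧ N ≤ Fintype.card ι ∧ 2 ≤ Fintype.card ι := by
  induction N with
  | zero => exact ⟨Fin 2, inferInstance, inferInstance, _, skew_two, by simp, by simp⟩
  | succ N ih =>
    obtain ⟨ι, h1, h2, C, h3, h4, h5⟩ := ih
    refine ⟨ι ⊕ ι, inferInstance, inferInstance, _, skew_double h3, ?_, ?_⟩
    · rw [Fintype.card_sum]; omega
    · rw [Fintype.card_sum]; omega

/-- The Hadamard matrix attached to a skew conference matrix. -/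
def G {ι : Type} [DecidableEq ι] (C : Matrix ι ι ℤ) : Matrix (ι ⊕ ι) (ι ⊕ ι) ℤ :=
  fromBlocks (C + 1) (C - 1) (C + 1) (1 - C)

theorem G_entries {ι : Type} [Fintype ι] [DecidableEq ι] {C : Matrix ι ι ℤ} (h : Skew C) (a b) :
    G C a b = 1 ∨ G C a b = -1 := by
  rcases a with i | i <;> rcases b with j | j <;> simp only [G, fromBlocks_apply₁₁,
    fromBlocks_apply₁₂, fromBlocks_apply₂₁, fromBlocks_apply₂₂, Matrix.add_apply, Matrix.sub_apply] <;>
    by_cases e : i = j
  · subst e; simp [h.diag]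
  · rw [one_apply_ne e, add_zero]; exact h.off i j e
  · subst e; simp [h.diag]
  · rw [one_apply_ne e, sub_zero]; exact h.off i j e
  · subst e; simp [h.diag]
  · rw [one_apply_ne e, add_zero]; exact h.off i j e
  · subst e; simp [h.diag]
  · rw [one_apply_ne e, zero_sub]
    rcases h.off i j e with h1 | h1
    · right; rw [h1]
    · left; rw [h1]; norm_num

theorem G_rows {ι : Type} [Fintype ι] [DecidableEq ι] {C : Matrix ι ι ℤ} (h : Skew C) :
    G C * (G C)ᵀ = (Fintype.card (ι ⊕ ι) : ℤ) • (1 : Matrix (ι ⊕ ι) (ι ⊕ ι) ℤ) := by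
  rw [G, fromBlocks_transpose, fromBlocks_multiply, ← fromBlocks_one, fromBlocks_smul,
    Fintype.card_sum]
  simp only [transpose_add, transpose_sub, transpose_one, h.skew, smul_zero]
  have hs := h.sq
  have e1 : (C + 1) * (-C + 1) + (C - 1) * (-C - 1) =
      ((Fintype.card ι + Fintype.card ι : ℕ) : ℤ) • (1 : Matrix ι ι ℤ) := by
    have : (C + 1) * (-C + 1) + (C - 1) * (-C - 1) = 1 + 1 - C * C - C * C := by noncomm_ring
    rw [this, hs]
    ext i j
    simp only [Matrix.add_apply, Matrix.sub_apply, Matrix.smul_apply, smul_eq_mul]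
    push_cast
    ring
  have e2 : (C + 1) * (-C + 1) + (C - 1) * (1 - -C) = 0 := by noncomm_ring
  have e3 : (C + 1) * (-C + 1) + (1 - C) * (-C - 1) = 0 := by noncomm_ring
  have e4 : (C + 1) * (-C + 1) + (1 - C) * (1 - -C) =
      ((Fintype.card ι + Fintype.card ι : ℕ) : ℤ) • (1 : Matrix ι ι ℤ) := by
    have : (C + 1) * (-C + 1) + (1 - C) * (1 - -C) =
      (C + 1) * (-C + 1) + (C - 1) * (-C - 1) := by noncomm_ring
    rw [this, e1]
  rw [e1, e2, e3, e4]

theorem G_cols {ι : Type} [Fintype ι] [DecidableEq ι] {C : Matrix ι ι ℤ} (h : Skew C) :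
    (G C)ᵀ * G C = (Fintype.card (ι ⊕ ι) : ℤ) • (1 : Matrix (ι ⊕ ι) (ι ⊕ ι) ℤ) := by
  rw [G, fromBlocks_transpose, fromBlocks_multiply, ← fromBlocks_one, fromBlocks_smul,
    Fintype.card_sum]
  simp only [transpose_add, transpose_sub, transpose_one, h.skew, smul_zero]
  have hs := h.sq
  have e1 : (-C + 1) * (C + 1) + (-C + 1) * (C + 1) =
      ((Fintype.card ι + Fintype.card ι : ℕ) : ℤ) • (1 : Matrix ι ι ℤ) := by
    have : (-C + 1) * (C + 1) + (-C + 1) * (C + 1) = 1 + 1 - C * C - C * C := by noncomm_ring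
    rw [this, hs]
    ext i j
    simp only [Matrix.add_apply, Matrix.sub_apply, Matrix.smul_apply, smul_eq_mul]
    push_cast
    ring
  have e2 : (-C + 1) * (C - 1) + (-C + 1) * (1 - C) = 0 := by noncomm_ring
  have e3 : (-C - 1) * (C + 1) + (1 - -C) * (C + 1) = 0 := by noncomm_ring
  have e4 : (-C - 1) * (C - 1) + (1 - -C) * (1 - C) =
      ((Fintype.card ι + Fintype.card ι : ℕ) : ℤ) • (1 : Matrix ι ι ℤ) := by
    have : (-C - 1) * (C - 1) + (1 - -C) * (1 - C) =
      (-C + 1) * (C + 1) + (-C + 1) * (C + 1) := by noncomm_ring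
    rw [this, e1]
  rw [e1, e2, e3, e4]

/-! ### Hamming distance and inner products -/

theorem inner_hamming {m : ℕ} {x y : Fin m → ℤ} (hx : x ∈ cube m) (hy : y ∈ cube m) :
    ∑ i, x i * y i = m - 2 * (hammingDist x y : ℤ) := by
  have h1 : ∀ i, x i * y i = 1 - 2 * (if x i ≠ y i then 1 else 0) := by
    intro i
    rcases hx i with h | h <;> rcases hy i with h' | h' <;> rw [h, h'] <;> norm_num
  rw [Finset.sum_congr rfl fun i _ => h1 i, Finset.sum_sub_distrib, ← Finset.mul_sum,
    hammingDist, Finset.card_filter]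
  push_cast
  simp

theorem sum_split {n : ℕ} (hn : 4 ≤ n) (g : Fin n → ℤ) :
    ∑ i, g i = ∑ a : Fin 4, g ⟨a, by omega⟩ + ∑ i : Fin (n - 4), g ⟨4 + i, by omega⟩ := by
  obtain ⟨m, rfl⟩ := Nat.exists_eq_add_of_le hn
  rw [Fin.sum_univ_add]
  congr 1
  have e : 4 + m - 4 = m := by omega
  refine Fintype.sum_equiv (finCongr e.symm) _ _ fun i => ?_
  rfl

theorem bdd {m : ℕ} (A : Set (Fin m → ℤ)) :
    BddAbove {d | ∃ x ∈ A, ∃ y ∈ A, d = hammingDist x y} := by
  refine ⟨m, ?_⟩
  rintro d ⟨x, _, y, _, rfl⟩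
  have := hammingDist_le_card_fintype (x := x) (y := y)
  simpa using this

/-- A normalized Hadamard matrix with a suitable quadruple of columns gives a set of columns
of `H_{-4}` which is not diametrically maximal. -/
theorem not_maximal {n : ℕ} (hn : 8 < n) {H : Matrix (Fin n) (Fin n) ℤ} (hH : NormHadamard H)
    (c : Fin 4 → Fin n) (hc : Function.Injective c)
    (h1 : ∀ i : Fin (n - 4), ∏ s, H ⟨4 + i, by omega⟩ (c s) = -1)
    (h2 : ∀ a : Fin 4, a ≠ 0 → ∑ s, H ⟨a, by omega⟩ (c s) = 0) :
    ¬ DiamMaximal (colSet 4 H) := by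
  intro hmax
  -- the new point
  have hx : ∀ i : Fin (n - 4), ∃ x : ℤ, (x = 1 ∨ x = -1) ∧
      2 * x = ∑ s, H ⟨4 + i, by omega⟩ (c s) := by
    intro i
    have := h1 i
    rw [Fin.prod_univ_four] at this
    rw [Fin.sum_univ_four]
    rcases hH.entries ⟨4 + i, by omega⟩ (c 0) with a0 | a0 <;>
    rcases hH.entries ⟨4 + i, by omega⟩ (c 1) with a1 | a1 <;>
    rcases hH.entries ⟨4 + i, by omega⟩ (c 2) with a2 | a2 <;>
    rcases hH.entries ⟨4 + i, by omega⟩ (c 3) with a3 | a3 <;>
    rw [a0, a1, a2, a3] at this ⊢ <;>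
    first
      | exact ⟨1, Or.inl rfl, by decide⟩
      | exact ⟨-1, Or.inr rfl, by decide⟩
      | exact absurd this (by decide)
  choose x hx1 hx2 using hx
  have hxc : x ∈ cube (n - 4) := hx1
  have hcolc : ∀ k, (fun i : Fin (n - 4) => H ⟨4 + i, by omega⟩ k) ∈ cube (n - 4) :=
    fun k i => hH.entries _ _
  -- inner products of the new point with the columns
  have hfull : ∀ k l, ∑ i, H i k * H i l = if k = l then (n : ℤ) else 0 := by
    intro k l
    have := congrFun (congrFun hH.cols k) l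
    rw [Matrix.mul_apply] at this
    simp only [transpose_apply, Matrix.smul_apply, Matrix.one_apply, smul_eq_mul] at this
    rw [this]; split_ifs <;> ring
  have hip : ∀ k, 2 * ∑ i, x i * H ⟨4 + i, by omega⟩ k =
      (if ∃ s, c s = k then (n : ℤ) else 0) - 4 := by
    intro k
    have e1 : 2 * ∑ i, x i * H ⟨4 + i, by omega⟩ k =
        ∑ s, ∑ i : Fin (n - 4), H ⟨4 + i, by omega⟩ (c s) * H ⟨4 + i, by omega⟩ k := by
      rw [Finset.mul_sum, Finset.sum_comm]
      refine Finset.sum_congr rfl fun i _ => ?_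
      rw [← mul_assoc, hx2 i, Finset.sum_mul]
    have e2 : ∀ s, ∑ i : Fin (n - 4), H ⟨4 + i, by omega⟩ (c s) * H ⟨4 + i, by omega⟩ k =
        (if c s = k then (n : ℤ) else 0) -
          ∑ a : Fin 4, H ⟨a, by omega⟩ (c s) * H ⟨a, by omega⟩ k := by
      intro s
      have := sum_split (by omega : 4 ≤ n) (fun i => H i (c s) * H i k)
      rw [hfull] at this
      linarith
    rw [e1, Finset.sum_congr rfl fun s _ => e2 s, Finset.sum_sub_distrib, Finset.sum_comm]
    have e3 : ∀ a : Fin 4, ∑ s, H ⟨a, by omega⟩ (c s) * H ⟨a, by omega⟩ k =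
        if a = 0 then 4 else 0 := by
      intro a
      rw [← Finset.sum_mul]
      by_cases ha : a = 0
      · subst ha
        rw [if_pos rfl]
        have : ∀ l, H ⟨((0 : Fin 4) : ℕ), by simp; omega⟩ l = 1 := fun l => hH.first_row _ _ rfl
        simp only [this]
        norm_num
      · rw [if_neg ha, h2 a ha, zero_mul]
    rw [Finset.sum_congr rfl fun a _ => e3 a, Finset.sum_ite_eq' Finset.univ (0 : Fin 4)]
    simp only [Finset.mem_univ, if_true]
    congr 1
    by_cases hk : ∃ s, c s = k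
    · obtain ⟨s, hs⟩ := hk
      rw [if_pos ⟨s, hs⟩, Finset.sum_eq_single s]
      · rw [if_pos hs]
      · intro t _ hts
        rw [if_neg]
        intro e
        exact hts (hc (e.trans hs.symm))
      · intro h; exact absurd (Finset.mem_univ s) h
    · rw [if_neg hk]
      apply Finset.sum_eq_zero
      intro s _
      rw [if_neg]
      exact fun e => hk ⟨s, e⟩
  -- distances from the new point
  have hdist : ∀ k, 0 < hammingDist x (fun i : Fin (n - 4) => H ⟨4 + i, by omega⟩ k) ∧
      2 * hammingDist x (fun i : Fin (n - 4) => H ⟨4 + i, by omega⟩ k) ≤ n := by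
    intro k
    have e1 : ∑ i, x i * H ⟨4 + i, by omega⟩ k = ((n - 4 : ℕ) : ℤ) - 2 *
      (hammingDist x (fun i : Fin (n - 4) => H ⟨4 + i, by omega⟩ k) : ℤ) :=
      inner_hamming hxc (hcolc k)
    have e2 := hip k
    rw [e1] at e2
    have e3 : ((n - 4 : ℕ) : ℤ) = (n : ℤ) - 4 := by
      rw [Nat.cast_sub (by omega)]; norm_num
    rw [e3] at e2
    split_ifs at e2 <;> omega
  -- two columns agreeing in the first four rows
  have hpig : ∃ k l : Fin n, k ≠ l ∧ ∀ a : Fin 4, H ⟨a, by omega⟩ k = H ⟨a, by omega⟩ l := by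
    let φ : Fin n → (Fin 3 → Bool) := fun k a => decide (H ⟨a + 1, by omega⟩ k = 1)
    have hcard : Fintype.card (Fin 3 → Bool) < Fintype.card (Fin n) := by
      simp; omega
    obtain ⟨k, l, hkl, hφ⟩ := Fintype.exists_ne_map_eq_of_card_lt φ hcard
    refine ⟨k, l, hkl, ?_⟩
    intro a
    refine Fin.cases ?_ (fun b => ?_) a
    · rw [hH.first_row _ _ (by simp), hH.first_row _ _ (by simp)]
    · have h3 := congrFun hφ b
      simp only [φ, decide_eq_decide] at h3
      have h4 : (⟨((Fin.succ b : Fin 4) : ℕ), by omega⟩ : Fin n) = ⟨b + 1, by omega⟩ := by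
        ext; simp
      rw [h4]
      rcases hH.entries ⟨b + 1, by omega⟩ k with h5 | h5
      · rw [h5, h3.1 h5]
      · rcases hH.entries ⟨b + 1, by omega⟩ l with h6 | h6
        · rw [h6, h3.2 h6]
        · rw [h5, h6]
  obtain ⟨k, l, hkl, hagree⟩ := hpig
  have hbig : n ≤ 2 * diam (colSet 4 H) := by
    have e1 : ∑ i : Fin (n - 4), H ⟨4 + i, by omega⟩ k * H ⟨4 + i, by omega⟩ l =
      ((n - 4 : ℕ) : ℤ) - 2 * (hammingDist (fun i : Fin (n - 4) => H ⟨4 + i, by omega⟩ k)
        (fun i : Fin (n - 4) => H ⟨4 + i, by omega⟩ l) : ℤ) :=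
      inner_hamming (hcolc k) (hcolc l)
    have e2 := sum_split (by omega : 4 ≤ n) (fun i => H i k * H i l)
    rw [hfull, if_neg hkl] at e2
    have e3 : ∑ a : Fin 4, H ⟨a, by omega⟩ k * H ⟨a, by omega⟩ l = 4 := by
      have : ∀ a : Fin 4, H ⟨a, by omega⟩ k * H ⟨a, by omega⟩ l = 1 := by
        intro a
        rw [hagree a]
        rcases hH.entries ⟨a, by omega⟩ l with h | h <;> rw [h] <;> norm_num
      rw [Finset.sum_congr rfl fun a _ => this a]
      simp
    rw [e3] at e2
    have e4 : hammingDist (fun i : Fin (n - 4) => H ⟨4 + i, by omega⟩ k)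
        (fun i : Fin (n - 4) => H ⟨4 + i, by omega⟩ l) ≤ diam (colSet 4 H) := by
      apply le_csSup (bdd _)
      exact ⟨_, ⟨k, fun i => rfl⟩, _, ⟨l, fun i => rfl⟩, rfl⟩
    have e5 : ((n - 4 : ℕ) : ℤ) = (n : ℤ) - 4 := by
      rw [Nat.cast_sub (by omega)]; norm_num
    rw [e5] at e1
    omega
  have hnot : x ∉ colSet 4 H := by
    rintro ⟨k', hk'⟩
    have := (hdist k').1
    have e : (fun i : Fin (n - 4) => H ⟨4 + i, by omega⟩ k') = x := by
      funext i; exact (hk' i).symm
    rw [e, hammingDist_self] at this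
    exact lt_irrefl _ this
  have hlt := hmax x hxc hnot
  have hle : diam (insert x (colSet 4 H)) ≤ diam (colSet 4 H) := by
    apply csSup_le'
    rintro d ⟨y, hy, z, hz, rfl⟩
    have hxd : ∀ w ∈ colSet 4 H, hammingDist x w ≤ diam (colSet 4 H) := by
      rintro w ⟨k', hk'⟩
      have e : (fun i : Fin (n - 4) => H ⟨4 + i, by omega⟩ k') = w := by
        funext i; exact (hk' i).symm
      have := (hdist k').2
      rw [e] at this
      omega
    rcases hy with rfl | hy <;> rcases hz with rfl | hz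
    · rw [hammingDist_self]; exact Nat.zero_le _
    · exact hxd z hz
    · rw [hammingDist_comm]; exact hxd y hy
    · exact le_csSup (bdd _) ⟨y, hy, z, hz, rfl⟩
  exact absurd hlt (not_lt.2 hle)

/-- Normalisation and reindexing. -/
theorem normalise {κ : Type} [Fintype κ] [DecidableEq κ] {n : ℕ} (hn : 8 < n)
    (hcard : Fintype.card κ = n) (M : Matrix κ κ ℤ) (hM : ∀ i j, M i j = 1 ∨ M i j = -1)
    (hr : M * Mᵀ = (n : ℤ) • (1 : Matrix κ κ ℤ)) (hcl : Mᵀ * M = (n : ℤ) • (1 : Matrix κ κ ℤ))
    (r : Fin 4 → κ) (hrinj : Function.Injective r) (c : Fin 4 → κ) (hcinj : Function.Injective c)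
    (h1 : ∀ i, (∀ a, i ≠ r a) → ∏ s, M i (c s) = 1) (h1' : ∏ s, M (r 0) (c s) = -1)
    (h2 : ∀ a, a ≠ 0 → ∑ s, M (r a) (c s) * M (r 0) (c s) = 0) :
    ∃ H : Matrix (Fin n) (Fin n) ℤ, NormHadamard H ∧ ¬ DiamMaximal (colSet 4 H) := by
  have hsq : ∀ i j, M i j * M i j = 1 := by
    intro i j
    rcases hM i j with h | h <;> rw [h] <;> norm_num
  -- rows
  have hex : ∃ e : Fin n ≃ κ, ∀ a : Fin 4, e ⟨a, by omega⟩ = r a := by
    have hc' : Fintype.card (Fin n) = (Finset.univ : Finset κ).card := by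
      rw [Finset.card_univ, hcard, Fintype.card_fin]
    obtain ⟨g, hg⟩ := Finset.exists_equiv_extend_of_card_eq hc'
      (s := Finset.univ.filter (fun i : Fin n => (i : ℕ) < 4))
      (f := fun i => if h : (i : ℕ) < 4 then r ⟨i, h⟩ else r 0) (Finset.subset_univ _) (by
        intro i hi j hj hij
        simp only [Finset.coe_filter, Finset.mem_univ, true_and, Set.mem_ofPred_eq] at hi hj
        simp only [dif_pos hi, dif_pos hj] at hij
        have := hrinj hij
        ext
        simpa using this)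
    refine ⟨g.trans (Equiv.subtypeUnivEquiv (fun x => Finset.mem_univ x)), ?_⟩
    intro a
    have h3 := hg ⟨a, by omega⟩ (by simp)
    simp only [Equiv.trans_apply, Equiv.subtypeUnivEquiv_apply]
    rw [h3]
    simp
  obtain ⟨e, he⟩ := hex
  have hf : Nonempty (Fin n ≃ κ) := ⟨e⟩
  obtain ⟨f⟩ := hf
  let z : Fin n := ⟨0, by omega⟩
  have hez : e z = r 0 := he 0
  let H : Matrix (Fin n) (Fin n) ℤ := fun i k =>
    M (e i) (f k) * M (e z) (f k) * (M (e i) (f z) * M (e z) (f z))
  have hH : NormHadamard H := by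
    refine ⟨?_, ?_, ?_, ?_, ?_⟩
    · intro i j
      simp only [H]
      rcases hM (e i) (f j) with a | a <;> rcases hM (e z) (f j) with b | b <;>
        rcases hM (e i) (f z) with a' | a' <;> rcases hM (e z) (f z) with b' | b' <;>
        rw [a, b, a', b'] <;> norm_num
    · ext i j
      rw [Matrix.mul_apply]
      rw [Matrix.smul_apply, smul_eq_mul]
      have e1 : ∀ k, H i k * Hᵀ k j =
          (M (e i) (f z) * M (e j) (f z)) * (M (e i) (f k) * M (e j) (f k)) := by
        intro k
        change M (e i) (f k) * M (e z) (f k) * (M (e i) (f z) * M (e z) (f z)) *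
          (M (e j) (f k) * M (e z) (f k) * (M (e j) (f z) * M (e z) (f z))) =
          (M (e i) (f z) * M (e j) (f z)) * (M (e i) (f k) * M (e j) (f k))
        linear_combination (M (e i) (f k) * M (e i) (f z) * M (e j) (f k) * M (e j) (f z)) *
          (M (e z) (f z) * M (e z) (f z) * hsq (e z) (f k) + hsq (e z) (f z))
      rw [Finset.sum_congr rfl fun k _ => e1 k, ← Finset.mul_sum]
      have e2 : ∑ k, M (e i) (f k) * M (e j) (f k) = (n : ℤ) * (if i = j then 1 else 0) := by
        rw [Equiv.sum_comp f (fun k => M (e i) k * M (e j) k)]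
        have := congrFun (congrFun hr (e i)) (e j)
        rw [Matrix.mul_apply] at this
        simp only [transpose_apply, Matrix.smul_apply, Matrix.one_apply, smul_eq_mul,
          EmbeddingLike.apply_eq_iff_eq] at this
        exact this
      rw [e2, Matrix.one_apply]
      by_cases hij : i = j
      · subst hij; rw [hsq]; ring
      · rw [if_neg hij]; ring
    · ext i j
      rw [Matrix.mul_apply]
      rw [Matrix.smul_apply, smul_eq_mul]
      have e1 : ∀ k, Hᵀ i k * H k j =
          (M (e z) (f i) * M (e z) (f j)) * (M (e k) (f i) * M (e k) (f j)) := by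
        intro k
        change M (e k) (f i) * M (e z) (f i) * (M (e k) (f z) * M (e z) (f z)) *
          (M (e k) (f j) * M (e z) (f j) * (M (e k) (f z) * M (e z) (f z))) =
          (M (e z) (f i) * M (e z) (f j)) * (M (e k) (f i) * M (e k) (f j))
        linear_combination (M (e k) (f i) * M (e z) (f i) * M (e k) (f j) * M (e z) (f j)) *
          (M (e z) (f z) * M (e z) (f z) * hsq (e k) (f z) + hsq (e z) (f z))
      rw [Finset.sum_congr rfl fun k _ => e1 k, ← Finset.mul_sum]
      have e2 : ∑ k, M (e k) (f i) * M (e k) (f j) = (n : ℤ) * (if i = j then 1 else 0) := by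
        rw [Equiv.sum_comp e (fun k => M k (f i) * M k (f j))]
        have := congrFun (congrFun hcl (f i)) (f j)
        rw [Matrix.mul_apply] at this
        simp only [transpose_apply, Matrix.smul_apply, Matrix.one_apply, smul_eq_mul,
          EmbeddingLike.apply_eq_iff_eq] at this
        exact this
      rw [e2, Matrix.one_apply]
      by_cases hij : i = j
      · subst hij; rw [hsq]; ring
      · rw [if_neg hij]; ring
    · intro i j hi
      have : i = z := by ext; exact hi
      subst this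
      simp only [H]
      rw [hsq, hsq]; norm_num
    · intro i j hj
      have : j = z := by ext; exact hj
      subst this
      simp only [H]
      linear_combination hsq (e i) (f z) * (M (e z) (f z) * M (e z) (f z)) + hsq (e z) (f z)
  refine ⟨H, hH, not_maximal hn hH (fun s => f.symm (c s)) ?_ ?_ ?_⟩
  · intro s t hst
    exact hcinj (f.symm.injective hst)
  · intro i
    have h3 : ∀ a, e ⟨4 + i, by omega⟩ ≠ r a := by
      intro a ha
      rw [← he a] at ha
      have := congrArg Fin.val (e.injective ha)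
      simp at this
      omega
    have h4 := h1 _ h3
    simp only [H, Equiv.apply_symm_apply]
    rw [Finset.prod_mul_distrib, Finset.prod_mul_distrib, h4, hez, h1', Finset.prod_const,
      Finset.card_univ, Fintype.card_fin]
    have h5 := hsq (e ⟨4 + i, by omega⟩) (f z)
    have h6 := hsq (r 0) (f z)
    have h7 : (M (e ⟨4 + i, by omega⟩) (f z) * M (r 0) (f z)) ^ 4 = 1 := by
      have : (M (e ⟨4 + i, by omega⟩) (f z) * M (r 0) (f z)) ^ 4 =
        (M (e ⟨4 + i, by omega⟩) (f z) * M (e ⟨4 + i, by omega⟩) (f z)) ^ 2 *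
          (M (r 0) (f z) * M (r 0) (f z)) ^ 2 := by ring
      rw [this, h5, h6]; norm_num
    rw [h7]; norm_num
  · intro a ha
    simp only [H, Equiv.apply_symm_apply]
    rw [← Finset.sum_mul, he a, hez, h2 a ha, zero_mul]

/-- **Disproof of Q1**, with `r = 4`. -/
theorem result : ∀ n₀ : ℕ, ∃ n ≥ n₀, ∃ H : Matrix (Fin n) (Fin n) ℤ,
    NormHadamard H ∧ ¬ DiamMaximal (colSet 4 H) := by
  intro n₀
  obtain ⟨ι, hF, hD, C, hC, hN, h2⟩ := exists_skew (n₀ + 9)
  refine ⟨Fintype.card (ι ⊕ ι), by rw [Fintype.card_sum]; omega, ?_⟩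
  obtain ⟨j, j', hj⟩ := Fintype.exists_pair_of_one_lt_card (by omega : 1 < Fintype.card ι)
  have hskew : C j' j = - C j j' := by
    have := congrFun (congrFun hC.skew j) j'
    simpa using this
  have hsq : ∀ i k, i ≠ k → C i k * C i k = 1 := by
    intro i k hik
    rcases hC.off i k hik with h | h <;> rw [h] <;> norm_num
  let r : Fin 4 → ι ⊕ ι := ![Sum.inl j, Sum.inr j, Sum.inl j', Sum.inr j']
  have hrinj : Function.Injective r := by
    intro a b hab
    fin_cases a <;> fin_cases b <;> simp [r, hj, Ne.symm hj] at hab ⊢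
  refine normalise (by rw [Fintype.card_sum]; omega) rfl (G C) (G_entries hC) (G_rows hC)
    (G_cols hC) r hrinj r hrinj ?_ ?_ ?_
  · intro i hi
    rw [Fin.prod_univ_four]
    have a0 := hi 0
    have a1 := hi 1
    have a2 := hi 2
    have a3 := hi 3
    simp only [r, Matrix.cons_val] at a0 a1 a2 a3
    simp only [r, Matrix.cons_val]
    rcases i with i | i
    · have b0 : i ≠ j := fun e => a0 (by rw [e])
      have b1 : i ≠ j' := fun e => a2 (by rw [e])
      simp only [G, fromBlocks_apply₁₁, fromBlocks_apply₁₂, Matrix.add_apply, Matrix.sub_apply,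
        one_apply_ne b0, one_apply_ne b1, add_zero, sub_zero]
      linear_combination hsq i j b0 * (C i j' * C i j') + hsq i j' b1
    · have b0 : i ≠ j := fun e => a1 (by rw [e])
      have b1 : i ≠ j' := fun e => a3 (by rw [e])
      simp only [G, fromBlocks_apply₂₁, fromBlocks_apply₂₂, Matrix.add_apply, Matrix.sub_apply,
        one_apply_ne b0, one_apply_ne b1, add_zero, zero_sub]
      linear_combination hsq i j b0 * (C i j' * C i j') + hsq i j' b1
  · rw [Fin.prod_univ_four]
    simp only [r, Matrix.cons_val]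
    simp only [G, fromBlocks_apply₁₁, fromBlocks_apply₁₂, Matrix.add_apply, Matrix.sub_apply,
        one_apply_eq, one_apply_ne hj, add_zero, sub_zero, hC.diag, zero_add, zero_sub]
    linear_combination -hsq j j' hj
  · intro a ha
    rw [Fin.sum_univ_four]
    have hj' := hj.symm
    fin_cases a
    · exact absurd rfl ha
    · simp [r, G, hC.diag, one_apply_ne hj]
    · simp [r, G, hC.diag, one_apply_ne hj, one_apply_ne hj', hskew]
    · simp [r, G, hC.diag, one_apply_ne hj, one_apply_ne hj', hskew]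

end Pool.Agent.Results.MP_1efffb_co.FourRows
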